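import Pool.Agent.W544.PG.Defs4

/-!
# `so(n)` is simple for `n ≥ 3`, `n ≠ 4`
-/

set_option autoImplicit false

namespace Pool.Agent.W589.PG.Sim

open Pool.Agent.W544.PG Matrix

variable {n : ℕ}

/-- the basis elements of `so(n)` -/
def E (a b : Fin n) : Matrix (Fin n) (Fin n) ℂ := Matrix.single a b 1 - Matrix.single b a 1

theorem single_mul' (a b : Fin n) (z : Matrix (Fin n) (Fin n) ℂ) (i j : Fin n) :
    (Matrix.single a b (1 : ℂ) * z) i j = if i = a then z b j else 0 := by
  rw [Matrix.mul_apply]
  by_cases h : i = a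
  · subst h
    rw [Finset.sum_eq_single b]
    · simp
    · intro x _ hx
      simp [Ne.symm hx]
    · simp
  · rw [if_neg h]
    refine Finset.sum_eq_zero fun x _ => ?_
    simp [Ne.symm h]

theorem mul_single' (a b : Fin n) (z : Matrix (Fin n) (Fin n) ℂ) (i j : Fin n) :
    (z * Matrix.single a b (1 : ℂ)) i j = if j = b then z i a else 0 := by
  rw [Matrix.mul_apply]
  by_cases h : j = b
  · subst h
    rw [Finset.sum_eq_single a]
    · simp
    · intro x _ hx
      simp [Ne.symm hx]
    · simp
  · rw [if_neg h]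
    refine Finset.sum_eq_zero fun x _ => ?_
    simp [Ne.symm h]

theorem E_mul (a b : Fin n) (z : Matrix (Fin n) (Fin n) ℂ) (i j : Fin n) :
    (E a b * z) i j = (if i = a then z b j else 0) - (if i = b then z a j else 0) := by
  rw [E, sub_mul, Matrix.sub_apply, single_mul', single_mul']

theorem mul_E (a b : Fin n) (z : Matrix (Fin n) (Fin n) ℂ) (i j : Fin n) :
    (z * E a b) i j = (if j = b then z i a else 0) - (if j = a then z i b else 0) := by
  rw [E, mul_sub, Matrix.sub_apply, mul_single', mul_single']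

theorem E_skew (a b : Fin n) : (E a b)ᵀ = -E a b := by
  rw [E, Matrix.transpose_sub, Matrix.transpose_single, Matrix.transpose_single]
  abel

/-- the projection to the entries with exactly one index in `{a, b}` -/
def Dm (a b : Fin n) (y : Matrix (Fin n) (Fin n) ℂ) : Matrix (Fin n) (Fin n) ℂ :=
  Matrix.of fun i j => if ((i = a ∨ i = b) ↔ (j = a ∨ j = b)) then 0 else y i j

theorem skew_apply {y : Matrix (Fin n) (Fin n) ℂ} (h : yᵀ = -y) (i j : Fin n) :
    y j i = - y i j := by
  have := congrFun (congrFun h i) j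
  simpa using this

theorem Dm_eq {a b : Fin n} (hab : a ≠ b) {y : Matrix (Fin n) (Fin n) ℂ} (h : yᵀ = -y) :
    -(br (E a b) (br (E a b) y)) = Dm a b y := by
  ext i j
  have haa : y a a = 0 := by
    have := skew_apply h a a
    linear_combination this / 2
  have hbb : y b b = 0 := by
    have := skew_apply h b b
    linear_combination this / 2
  have hba : y b a = - y a b := skew_apply h a b
  have hba' : b ≠ a := Ne.symm hab
  simp only [br, Matrix.neg_apply, Matrix.sub_apply, E_mul, mul_E, Dm, Matrix.of_apply]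
  by_cases hia : i = a
  · subst hia
    by_cases hja : j = i
    · subst hja
      simp [hab, hba', haa, hbb, hba]
    · by_cases hjb : j = b
      · subst hjb
        simp [hab, hba', haa, hbb, hba]
      · simp [hab, hba', hja, hjb]
  · by_cases hib : i = b
    · subst hib
      by_cases hja : j = a
      · subst hja
        simp [hab, hba', haa, hbb, hba]
      · by_cases hjb : j = i
        · subst hjb
          simp [hab, hba', haa, hbb, hba]
        · simp [hja, hjb, hba', hab]
    · by_cases hja : j = a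
      · subst hja
        simp [hab, hba', hia, hib]
      · by_cases hjb : j = b
        · subst hjb
          simp [hab, hba', hia, hib]
        · simp [hia, hib, hja, hjb]

theorem br_E {p q c : Fin n} (hpq : p ≠ q) (hpc : p ≠ c) (hqc : q ≠ c) :
    br (E q c) (E p q) = - E p c := by
  ext i j
  simp only [br, Matrix.sub_apply, E_mul, Matrix.neg_apply]
  simp only [E, Matrix.sub_apply, Matrix.single_apply]
  by_cases hip : i = p
  · subst hip
    by_cases hjc : j = c
    · subst hjc
      simp [hpq, hpc, hqc, Ne.symm hpq, Ne.symm hpc, Ne.symm hqc]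
    · by_cases hjp : j = i
      · subst hjp
        simp [hpq, hpc, hqc, Ne.symm hpq, Ne.symm hpc, Ne.symm hqc]
      · simp [hpq, hpc, hqc, Ne.symm hpq, Ne.symm hpc, Ne.symm hqc, Ne.symm hjc, Ne.symm hjp]
  · by_cases hic : i = c
    · subst hic
      simp [hpq, hpc, hqc, Ne.symm hpq, Ne.symm hpc, Ne.symm hqc]
    · by_cases hiq : i = q
      · subst hiq
        simp [hpq, hpc, hqc, Ne.symm hpq, Ne.symm hpc, Ne.symm hqc]
      · simp [hip, hic, hiq, Ne.symm hip, Ne.symm hic, Ne.symm hiq]

theorem E_neg (a b : Fin n) : E b a = - E a b := by simp [E]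

theorem sim : S_sim := by
  intro n hn hn4 J hskew hJ hne Z hZ
  -- a nonzero entry
  obtain ⟨y, hyJ, hy0⟩ := Submodule.exists_mem_ne_zero_of_ne_bot hne
  have hex : ∃ p q, y p q ≠ 0 := by
    by_contra hcon
    push Not at hcon
    exact hy0 (by ext i j; simpa using hcon i j)
  obtain ⟨p, q, hpq0⟩ := hex
  have hpq : p ≠ q := by
    rintro rfl
    have := skew_apply (hskew y hyJ) p p
    apply hpq0
    linear_combination this / 2
  have hD : ∀ a b : Fin n, a ≠ b → ∀ z ∈ J, Dm a b z ∈ J := by
    intro a b hab z hz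
    rw [← Dm_eq hab (hskew z hz)]
    exact J.neg_mem (hJ _ (E_skew a b) _ (hJ _ (E_skew a b) _ hz))
  -- the successive projections
  have hS : ∀ S : Finset (Fin n), p ∉ S → q ∉ S → ∃ z ∈ J, z p q ≠ 0 ∧ ∀ i j, ∀ c ∈ S,
      (((i = p ∨ i = c) ↔ (j = p ∨ j = c)) ∨ ((i = q ∨ i = c) ↔ (j = q ∨ j = c))) →
        z i j = 0 := by
    intro S
    induction S using Finset.induction_on with
    | empty => intro _ _; exact ⟨y, hyJ, hpq0, fun i j c hc => by simp at hc⟩
    | insert c S hcS ih =>
      intro hp hq
      rw [Finset.mem_insert, not_or] at hp hq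
      obtain ⟨z, hz, hz1, hz2⟩ := ih hp.2 hq.2
      refine ⟨Dm p c (Dm q c z), hD _ _ hp.1 _ (hD _ _ hq.1 _ hz), ?_, ?_⟩
      · have h1 : ¬ (((p = p ∨ p = c) ↔ (q = p ∨ q = c))) := by
          simp [Ne.symm hpq, hq.1]
        have h2 : ¬ (((p = q ∨ p = c) ↔ (q = q ∨ q = c))) := by
          simp [hpq, hp.1]
        have h3 : Dm p c (Dm q c z) p q = z p q := by
          unfold Dm
          rw [Matrix.of_apply, if_neg h1, Matrix.of_apply, if_neg h2]
        rw [h3]
        exact hz1
      · intro i j c' hc' hcond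
        simp only [Dm, Matrix.of_apply]
        split_ifs with h1 h2
        · rfl
        · rfl
        · rcases Finset.mem_insert.mp hc' with rfl | hc'
          · rcases hcond with h | h
            · exact absurd h h1
            · exact absurd h h2
          · exact hz2 i j c' hc' hcond
  obtain ⟨z, hz, hz1, hz2⟩ := hS (Finset.univ \ {p, q}) (by simp) (by simp)
  have hzs := hskew z hz
  have hzero : ∀ i j, ¬ (i = p ∧ j = q) → ¬ (i = q ∧ j = p) → z i j = 0 := by
    intro i j h1 h2
    have hmain : ∃ c : Fin n, c ∉ ({p, q} : Finset (Fin n)) ∧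
      (((i = p ∨ i = c) ↔ (j = p ∨ j = c)) ∨ ((i = q ∨ i = c) ↔ (j = q ∨ j = c))) := by
      have hthird : ∀ T : Finset (Fin n), T.card < n → ∃ c, c ∉ T := by
        intro T hT
        by_contra hcon
        push Not at hcon
        have : T = Finset.univ := Finset.eq_univ_iff_forall.mpr hcon
        rw [this] at hT
        simp at hT
      by_cases hij : i = j
      · obtain ⟨c, hc⟩ := hthird {p, q} (lt_of_le_of_lt Finset.card_le_two (by omega))
        exact ⟨c, hc, Or.inl (by rw [hij])⟩
      by_cases hip : i = p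
      · have hjq : j ≠ q := fun h => h1 ⟨hip, h⟩
        have hjp : j ≠ p := fun h => hij (hip.trans h.symm)
        exact ⟨j, by simp [hjq, hjp], Or.inl (by simp [hip])⟩
      by_cases hiq : i = q
      · have hjp : j ≠ p := fun h => h2 ⟨hiq, h⟩
        have hjq : j ≠ q := fun h => hij (hiq.trans h.symm)
        exact ⟨j, by simp [hjq, hjp], Or.inr (by simp [hiq])⟩
      by_cases hjp : j = p
      · exact ⟨i, by simp [hip, hiq], Or.inl (by simp [hjp])⟩
      by_cases hjq : j = q
      · exact ⟨i, by simp [hip, hiq], Or.inr (by simp [hjq])⟩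
      have hcard : ({p, q, i, j} : Finset (Fin n)).card = 4 := by
        rw [Finset.card_insert_of_notMem, Finset.card_insert_of_notMem,
          Finset.card_pair hij]
        · simp [Ne.symm hiq, Ne.symm hjq]
        · simp [hpq, Ne.symm hip, Ne.symm hjp]
      have hle : ({p, q, i, j} : Finset (Fin n)).card ≤ n := by
        have := Finset.card_le_univ ({p, q, i, j} : Finset (Fin n))
        simpa using this
      obtain ⟨c, hc⟩ := hthird {p, q, i, j} (by omega)
      simp only [Finset.mem_insert, Finset.mem_singleton, not_or] at hc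
      refine ⟨c, by simp [hc.1, hc.2.1], Or.inl ?_⟩
      simp [hip, hjp, Ne.symm hc.2.2.1, Ne.symm hc.2.2.2]
    obtain ⟨c, hc1, hc2⟩ := hmain
    exact hz2 i j c (by simpa using hc1) hc2
  have hzE : z = z p q • E p q := by
    ext i j
    simp only [E, Matrix.smul_apply, Matrix.sub_apply, Matrix.single_apply, smul_eq_mul]
    by_cases h1 : i = p ∧ j = q
    · obtain ⟨rfl, rfl⟩ := h1
      simp [hpq]
    · by_cases h2 : i = q ∧ j = p
      · obtain ⟨rfl, rfl⟩ := h2
        rw [skew_apply hzs j i]
        simp [hpq]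
      · rw [hzero i j h1 h2]
        have h1' : ¬ (p = i ∧ q = j) := fun h => h1 ⟨h.1.symm, h.2.symm⟩
        have h2' : ¬ (q = i ∧ p = j) := fun h => h2 ⟨h.1.symm, h.2.symm⟩
        simp [h1', h2']
  have hE0 : E p q ∈ J := by
    have h1 : (z p q)⁻¹ • z ∈ J := J.smul_mem _ hz
    have h2 : (z p q)⁻¹ • z = E p q := by
      generalize hw : z p q = w at *
      rw [hzE, smul_smul, inv_mul_cancel₀ hz1, one_smul]
    rwa [h2] at h1
  have step : ∀ a b : Fin n, a ≠ b → E a b ∈ J → ∀ c, a ≠ c → E a c ∈ J := by
    intro a b hab h c hac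
    by_cases hbc : b = c
    · rw [← hbc]; exact h
    · have := hJ _ (E_skew b c) _ h
      rw [br_E hab hac hbc] at this
      simpa using J.neg_mem this
  have hall : ∀ a b : Fin n, E a b ∈ J := by
    intro a b
    by_cases hab : a = b
    · subst hab; simp [E]
    by_cases hap : a = p
    · subst hap
      exact step _ _ hpq hE0 _ hab
    · have h1 := step _ _ hpq hE0 a (Ne.symm hap)
      have h2 : E a p ∈ J := by
        rw [E_neg]; exact J.neg_mem h1
      exact step _ _ hap h2 _ hab
  have hfin : Z = ∑ a, ∑ b, (Z a b / 2) • E a b := by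
    have h1 : ∑ a, ∑ b, (Z a b / 2) • E a b =
        (1 / 2 : ℂ) • (∑ a, ∑ b, Matrix.single a b (Z a b)) -
          (1 / 2 : ℂ) • (∑ a, ∑ b, Matrix.single b a (Z a b)) := by
      rw [Finset.smul_sum, Finset.smul_sum, ← Finset.sum_sub_distrib]
      refine Finset.sum_congr rfl fun a _ => ?_
      rw [Finset.smul_sum, Finset.smul_sum, ← Finset.sum_sub_distrib]
      refine Finset.sum_congr rfl fun b _ => ?_
      ext i j
      simp only [E, Matrix.smul_apply, Matrix.sub_apply, Matrix.single_apply, smul_eq_mul]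
      split_ifs <;> ring
    rw [h1, ← Matrix.matrix_eq_sum_single]
    have h2 : (∑ a, ∑ b, Matrix.single b a (Z a b)) = Zᵀ := by
      rw [Finset.sum_comm]
      have := Matrix.matrix_eq_sum_single Zᵀ
      rw [this]
      rfl
    rw [h2, hZ, smul_neg, sub_neg_eq_add, ← add_smul]
    norm_num
  rw [hfin]
  exact J.sum_mem fun a _ => J.sum_mem fun b _ => J.smul_mem _ (hall a b)

end Pool.Agent.W589.PG.Sim
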