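import Pool.Agent.W619.Y.Stm9
import Pool.Agent.W735.PG.DESCJ

/-! Project PG (owner helper619), part DESCJB: the coefficients of a section of `m (K + B) + j A`
with respect to functions on the curve `F` are sections of `m (K + BY) + j A'` on the other
factor (adapted from the file of helper735). -/

set_option autoImplicit false
set_option linter.overlappingInstances false
set_option linter.unusedSectionVars false

universe u v

open FF IntermediateField Pool.Agent.W619.PQ Pool.Agent.W619.PL Pool.Agent.W619.TW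
  Pool.Agent.W603.LV

namespace Pool.Agent.W589.PG.DESCJB

open Pool.Agent.W735.PG.DESCJ (der_sum exists_low)
open Pool.Agent.W619.Y (BdTwo)

theorem main (h1 : Pool.Agent.W619.Y.S_GAUSSB.{u, v}) : Pool.Agent.W619.Y.S_DESCJB.{u, v} := by
  intro k L _ _ _ _ _ M F _ d BY BF hM hL hsup y hy t ht E hE0 hE0t hEF hEy S b0 hb0
  classical
  have hT : ∀ s : L, s ≠ 0 → ∃ T : Finset M, ∀ (u : Place k M) (U : Place k L),
      (∀ μ : M, U.ord (μ : L) = u.ord μ) → (∀ β : F, U.ord (β : L) = 0) →
      (∀ (r : ℕ) (β : Fin r → F) (μ : Fin r → M) (c : ℤ), LinearIndependent k β →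
        Ge U c (∑ i, (β i : L) * (μ i : L)) → ∀ i, Ge u c (μ i)) →
      ∃ s' ∈ T, s' ≠ 0 ∧ u.ord s' ≤ U.ord (b0 * s) :=
    fun s hs => exists_low hsup (mul_ne_zero hb0 hs)
  choose! T hT using hT
  refine ⟨S.biUnion T, ?_⟩
  intro m j ω hω r β μ hβ hsum i
  -- the common part
  have common : ∀ (u : Place k M) (U : Place k L), (∀ μ : M, U.ord (μ : L) = u.ord μ) →
      (∀ β : F, U.ord (β : L) = 0) →
      (∀ (r : ℕ) (β : Fin r → F) (μ : Fin r → M) (c : ℤ), LinearIndependent k β →
        Ge U c (∑ i, (β i : L) * (μ i : L)) → ∀ i, Ge u c (μ i)) →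
      ∀ D : Fin d → Derivation k M M,
      Dom U S j (ω (Fin.cons (E 0) (fun l => ∑ b, ((D l (y b) : M) : L) • E b.succ))) →
      Dom u (S.biUnion T) j (μ i * (Matrix.of fun a b => D a (y b)).det ^ m) := by
    intro u U hU1 hU2 hU3 D hdom
    let D' : Fin (d + 1) → Derivation k L L :=
      Fin.cons (E 0) (fun l => ∑ b, ((D l (y b) : M) : L) • E b.succ)
    let A : Matrix (Fin (d + 1)) (Fin (d + 1)) L :=
      Matrix.of (Fin.cons (Fin.cons 1 (fun _ => 0))
        (fun l => Fin.cons 0 (fun b => ((D l (y b) : M) : L))))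
    have hA : (fun a => ∑ c, A a c • E c) = D' := by
      funext a
      refine Fin.cases ?_ (fun l => ?_) a
      · show ∑ c, (Fin.cons 1 (fun _ => 0) : Fin (d + 1) → L) c • E c = E 0
        rw [Fin.sum_univ_succ]
        simp
      · show ∑ c, (Fin.cons 0 (fun b => ((D l (y b) : M) : L)) : Fin (d + 1) → L) c • E c = _
        rw [Fin.sum_univ_succ]
        simp only [Fin.cons_zero, Fin.cons_succ, zero_smul, zero_add]
        rfl
    have hdet : A.det = (((Matrix.of fun a b => D a (y b)).det : M) : L) := by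
      rw [Matrix.det_succ_row_zero, Fin.sum_univ_succ]
      have h3 : ∀ c : Fin d, A 0 c.succ = 0 := fun c => rfl
      have h4 : A 0 0 = 1 := rfl
      simp only [h3, h4, mul_zero, zero_mul, Finset.sum_const_zero, add_zero, Fin.val_zero,
        pow_zero, one_mul]
      have h6 := (algebraMap M L).map_det (Matrix.of fun a b => D a (y b))
      have h7 : A.submatrix Fin.succ (Fin.succAbove 0) =
          (algebraMap M L).mapMatrix (Matrix.of fun a b => D a (y b)) := by
        ext a b
        rfl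
      rw [h7, ← h6]
      rfl
    have hωD : ω D' = (((Matrix.of fun a b => D a (y b)).det : M) : L) ^ m * ω E := by
      rw [← hdet, ← hω.1 A E, hA]
    change Dom U S j (ω D') at hdom
    -- multiply by `b0 ^ j`
    set δ : M := (Matrix.of fun a b => D a (y b)).det with hδ
    have hexp : b0 ^ j * ω D' = ∑ i, (β i : L) * ((μ i * δ ^ m : M) : L) := by
      rw [hωD]
      calc b0 ^ j * ((δ : L) ^ m * ω E) = (δ : L) ^ m * (b0 ^ j * ω E) := by ring
        _ = _ := by
          rw [hsum, Finset.mul_sum]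
          refine Finset.sum_congr rfl fun i _ => ?_
          push_cast; ring
    rcases hdom with h0 | ⟨s, hs, hs0, hsU⟩
    · left
      by_contra hne
      have h9 := hU3 r β (fun i => μ i * δ ^ m) (u.ord (μ i * δ ^ m) + 1) hβ
        (by rw [← hexp, h0, mul_zero]; exact Ge.zero) i
      have := h9.resolve_left hne
      omega
    · obtain ⟨s', hs', hs'0, hle⟩ := hT s hs0 u U hU1 hU2 hU3
      have h9 : Ge U ((j : ℤ) * u.ord s') (b0 ^ j * ω D') := by
        have h10 : Ge U ((j : ℤ) * U.ord s) (ω D') := Or.inr hsU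
        have h11 : Ge U ((j : ℤ) * U.ord b0) (b0 ^ j) := Or.inr (by rw [U.ord_pow])
        refine (h11.mul h10).mono ?_
        rw [U.ord_mul hb0 hs0] at hle
        rw [← mul_add]
        exact mul_le_mul_of_nonneg_left hle (by positivity)
      rw [hexp] at h9
      rcases hU3 r β (fun i => μ i * δ ^ m) _ hβ h9 i with h12 | h12
      · left; exact h12
      · right
        exact ⟨s', Finset.mem_biUnion.2 ⟨s, hs, hs'⟩, hs'0, h12⟩
  -- facts on the derivations of `L`
  have hyM : ∀ (D : Fin d → Derivation k M M) (l : Fin d) (z : M),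
      (∑ b, ((D l (y b) : M) : L) • E b.succ) (z : L) = ((D l z : M) : L) := by
    intro D l z
    refine der_comp (K := M) (L := L) (D l) (∑ b, ((D l (y b) : M) : L) • E b.succ) y hy
      (fun c => ?_) z
    show (∑ b, ((D l (y b) : M) : L) • E b.succ) ((y c : M) : L) = ((D l (y c) : M) : L)
    rw [der_sum]
    simp only [hEy]
    simp
  have hF0 : ∀ β : F, ∃ β' : F, E 0 (β : L) = (β' : L) := by
    intro β
    obtain ⟨ρ, -, hρ⟩ := ratio' (k := k) (K := L) (E := F) ht β
    refine ⟨ρ, ?_⟩
    have h8 : E 0 (β : L) = (ρ : L) * E 0 (t : L) := hρ (E 0)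
    rw [h8, hE0t, mul_one]
  have hFl : ∀ (D : Fin d → Derivation k M M) (l : Fin d) (β : F), ∃ β' : F,
      (∑ b, ((D l (y b) : M) : L) • E b.succ) (β : L) = (β' : L) := by
    intro D l β
    refine ⟨0, ?_⟩
    rw [der_sum]
    simp [hEF]
  refine ⟨?_, ?_, ?_⟩
  · intro A D
    have h2 : (Matrix.of fun a b => (∑ c, A a c • D c) (y b)) =
        A * Matrix.of fun a b => D a (y b) := by
      ext a b
      rw [Matrix.of_apply, Matrix.mul_apply]
      simp only [Matrix.of_apply]
      congr 1
      exact der_sum (L := M) _ _ _ _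
    show μ i * (Matrix.of fun a b => (∑ c, A a c • D c) (y b)).det ^ m = _
    rw [h2, Matrix.det_mul]
    ring
  · intro u hu hBY D hD
    obtain ⟨U, hU1, hU2, hU3, hU4, hU5, -⟩ := h1 k L M F d hM hL hsup u
    have hov : Over U u 1 := ⟨Nat.one_pos, fun f => by rw [Nat.cast_one, one_mul]; exact hU1 f⟩
    have hnb : ¬ BdTwo M F BY BF U := by
      rintro (⟨u', e, ho, hb⟩ | ⟨p, e, ho, -⟩)
      · have h5 := (over_unique' hov ho).1
        exact hBY (h5 ▸ hb)
      · obtain ⟨s, -, hs1⟩ := p.surj
        have h5 := ho.2 s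
        have h6 : U.ord (algebraMap F L s) = 0 := hU2 s
        rw [h6, hs1, mul_one] at h5
        have := ho.1
        omega
    have hpres : ∀ a, Pres U ((Fin.cons (E 0)
        (fun l => ∑ b, ((D l (y b) : M) : L) • E b.succ) : Fin (d + 1) → Derivation k L L) a) := by
      intro a
      refine Fin.cases ?_ (fun l => ?_) a
      · refine hU5 _ (fun z _ => ⟨0, ?_, u.reg_zero⟩) (fun β => hF0 β)
        show E 0 (z : L) = _
        rw [hE0]; rfl
      · exact hU5 _ (fun z hz => ⟨D l z, hyM D l z, hD l z hz⟩) (fun β => hFl D l β)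
    exact common u U hU1 hU2 hU3 D (hω.2.1 U (hU4 hu) hnb _ hpres)
  · intro u hu hBY D hD
    obtain ⟨U, hU1, hU2, hU3, hU4, -, hU6⟩ := h1 k L M F d hM hL hsup u
    have hov : Over U u 1 := ⟨Nat.one_pos, fun f => by rw [Nat.cast_one, one_mul]; exact hU1 f⟩
    have hb : BdTwo M F BY BF U := Or.inl ⟨u, 1, hov, hBY⟩
    have hlog : ∀ a, ∀ z : L, U.Reg ((Fin.cons (E 0)
        (fun l => ∑ b, ((D l (y b) : M) : L) • E b.succ) : Fin (d + 1) → Derivation k L L) a z /
          z) := by
      intro a
      refine Fin.cases ?_ (fun l => ?_) a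
      · refine hU6 _ (fun z => ⟨0, ?_, ?_⟩) (fun β => hF0 β)
        · show E 0 (z : L) = _
          rw [hE0]; rfl
        · rw [zero_div]
          exact u.reg_zero
      · exact hU6 _ (fun z => ⟨D l z, hyM D l z, hD l z⟩) (fun β => hFl D l β)
    exact common u U hU1 hU2 hU3 D (hω.2.2 U (hU4 hu) hb _ hlog)

end Pool.Agent.W589.PG.DESCJB
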